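import Pool.Agent.H27.MS.Stmts

/-!
# Modules AVG and PAR (helper17)
-/

namespace MS

open TopologicalSpace MeasureTheory Filter Topology

theorem avg_aux (a : ℕ → ℝ) (ha : Monotone a) (h0 : ∀ n, 0 ≤ a n) (N k : ℕ) :
    ∑ m ∈ Finset.range N, (a (N + m + k) - a (N + m)) ≤ k * a (2 * N + k) := by
  induction k with
  | zero => simp
  | succ k ih =>
    have h1 : ∑ m ∈ Finset.range N, (a (N + m + (k + 1)) - a (N + m)) =
        ∑ m ∈ Finset.range N, (a (N + m + k) - a (N + m)) +
        ∑ m ∈ Finset.range N, (a (N + k + (m + 1)) - a (N + k + m)) := by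
      rw [← Finset.sum_add_distrib]
      apply Finset.sum_congr rfl
      intro m _
      have e1 : N + m + (k + 1) = N + k + (m + 1) := by ring
      have e2 : N + m + k = N + k + m := by ring
      rw [e1, e2]
      ring
    rw [h1, Finset.sum_range_sub (fun m => a (N + k + m))]
    have h2 : a (2 * N + k) ≤ a (2 * N + (k + 1)) := ha (by omega)
    have h3 : a (N + k + N) ≤ a (2 * N + (k + 1)) := ha (by omega)
    have h4 := h0 (N + k + 0)
    have h5 : (k : ℝ) * a (2 * N + k) ≤ k * a (2 * N + (k + 1)) :=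
      mul_le_mul_of_nonneg_left h2 (Nat.cast_nonneg k)
    push_cast
    linarith

theorem avg_min (x y : ℝ) (hx : 0 < x) (hy : x ≤ y) :
    min 1 ((y - x) / x) ≤ 2 * (Real.log y - Real.log x) := by
  have hy0 : 0 < y := lt_of_lt_of_le hx hy
  have h1 : 1 - (y / x)⁻¹ ≤ Real.log (y / x) := Real.one_sub_inv_le_log_of_pos (by positivity)
  rw [Real.log_div hy0.ne' hx.ne', inv_div] at h1
  refine le_trans ?_ (mul_le_mul_of_nonneg_left h1 (by norm_num : (0 : ℝ) ≤ 2))
  have h2 : (1 : ℝ) - x / y = (y - x) / y := by field_simp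
  rw [h2]
  by_cases h : y ≤ 2 * x
  · refine le_trans (min_le_right _ _) ?_
    rw [div_le_iff₀ hx]
    have : (2 : ℝ) * ((y - x) / y) * x = (y - x) * (2 * x / y) := by ring
    rw [this]
    have h3 : 1 ≤ 2 * x / y := by rw [le_div_iff₀ hy0]; linarith
    nlinarith
  · push Not at h
    refine le_trans (min_le_left _ _) ?_
    rw [← mul_div_assoc, le_div_iff₀ hy0]
    linarith

theorem avg : AVGStmt := by
  intro q hq h1 hlim k
  have hpos : ∀ n, (0 : ℝ) < q n := fun n => by exact_mod_cast h1 n
  have hle : ∀ n, (1 : ℝ) ≤ q n := fun n => by exact_mod_cast h1 n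
  have hmono : Monotone fun n => Real.log (q n) := fun m n hmn =>
    Real.log_le_log (hpos m) (by exact_mod_cast hq hmn)
  have h0 : ∀ n, 0 ≤ Real.log (q n) := fun n => Real.log_nonneg (hle n)
  have hbound : ∀ N : ℕ, (N : ℝ)⁻¹ * ∑ m ∈ Finset.range N,
      min 1 (((q (N + m + k) : ℝ) - q (N + m)) / q (N + m)) ≤
      2 * k * (2 + k) * (Real.log (q (2 * N + k)) / ((2 * N + k : ℕ) : ℝ)) := by
    intro N
    rcases Nat.eq_zero_or_pos N with rfl | hN
    · simp only [CharP.cast_eq_zero, inv_zero, zero_mul]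
      have := h0 (2 * 0 + k)
      positivity
    · have hN' : (1 : ℝ) ≤ N := by exact_mod_cast hN
      have s1 : ∑ m ∈ Finset.range N, min 1 (((q (N + m + k) : ℝ) - q (N + m)) / q (N + m)) ≤
          2 * (k * Real.log (q (2 * N + k))) := by
        refine le_trans (Finset.sum_le_sum fun m _ => avg_min (q (N + m)) (q (N + m + k))
          (hpos _) (by exact_mod_cast hq (by omega))) ?_
        rw [← Finset.mul_sum]
        exact mul_le_mul_of_nonneg_left (avg_aux (fun n => Real.log (q n)) hmono h0 N k)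
          (by norm_num)
      refine le_trans (mul_le_mul_of_nonneg_left s1 (by positivity)) ?_
      have h2 := h0 (2 * N + k)
      have h3 : (N : ℝ)⁻¹ ≤ (2 + k) / ((2 * N + k : ℕ) : ℝ) := by
        have hp : (0 : ℝ) < ((2 * N + k : ℕ) : ℝ) := by push_cast; positivity
        rw [le_div_iff₀ hp, inv_mul_le_iff₀ (by linarith)]
        push_cast
        have : (k : ℝ) ≤ N * k := le_mul_of_one_le_left (Nat.cast_nonneg k) hN'
        linarith
      calc (N : ℝ)⁻¹ * (2 * (k * Real.log (q (2 * N + k))))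
          ≤ (2 + k) / ((2 * N + k : ℕ) : ℝ) * (2 * (k * Real.log (q (2 * N + k)))) := by
            apply mul_le_mul_of_nonneg_right h3
            positivity
        _ = _ := by ring
  have hlim2 : Tendsto (fun N : ℕ => 2 * k * (2 + k) *
      (Real.log (q (2 * N + k)) / ((2 * N + k : ℕ) : ℝ))) atTop (𝓝 0) := by
    have ht : Tendsto (fun N : ℕ => 2 * N + k) atTop atTop :=
      tendsto_atTop_mono (fun N => by simp only [id]; omega) tendsto_id
    have := (hlim.comp ht).const_mul (2 * (k : ℝ) * (2 + k))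
    simpa using this
  refine squeeze_zero (fun N => ?_) hbound hlim2
  refine mul_nonneg (by positivity) (Finset.sum_nonneg fun m _ => ?_)
  refine le_min (by norm_num) (div_nonneg ?_ (hpos _).le)
  have : (q (N + m) : ℝ) ≤ q (N + m + k) := by exact_mod_cast hq (by omega)
  linarith

end MS
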