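import Pool.Agent.H27.MS.Stmts
import Mathlib.Probability.Independence.InfinitePi

/-!
# Module FRA (helper17): a free measure preserving action of the free group
-/

namespace MS

open TopologicalSpace MeasureTheory Filter Topology

/-- the uniform distribution on `[0, 1]` -/
noncomputable def fraNu : Measure ℝ := volume.restrict (Set.Icc 0 1)

instance : IsProbabilityMeasure fraNu := ⟨by simp [fraNu]⟩

instance : NullSingletonClass fraNu := by unfold fraNu; infer_instance

/-- independent uniform variables indexed by the free group -/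
noncomputable def fraMu : Measure (FreeGroup Bool → ℝ) := Measure.infinitePi fun _ => fraNu

instance : IsProbabilityMeasure fraMu := by unfold fraMu; infer_instance

/-- the injective sequences -/
def fraA : Set (FreeGroup Bool → ℝ) := {x | ∀ γ δ, γ ≠ δ → x γ ≠ x δ}

instance : Countable (FreeGroup Bool) := by
  have : Function.Surjective (FreeGroup.mk : List (Bool × Bool) → FreeGroup Bool) :=
    fun γ => ⟨γ.toWord, γ.mk_toWord⟩
  exact this.countable

theorem fraA_meas : MeasurableSet fraA := by
  have : fraA = ⋂ (γ : FreeGroup Bool) (δ : FreeGroup Bool) (_ : γ ≠ δ),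
      {x : FreeGroup Bool → ℝ | x γ = x δ}ᶜ := by
    ext x
    simp only [fraA, Set.mem_ofPred_eq, Set.mem_iInter, Set.mem_compl_iff, ne_eq]
  rw [this]
  refine MeasurableSet.iInter fun γ => MeasurableSet.iInter fun δ => MeasurableSet.iInter fun _ =>
    MeasurableSet.compl ?_
  exact measurableSet_eq_fun (measurable_pi_apply γ) (measurable_pi_apply δ)

theorem fra_null {γ δ : FreeGroup Bool} (h : γ ≠ δ) :
    fraMu {x : FreeGroup Bool → ℝ | x γ = x δ} = 0 := by
  have h1 : {x : FreeGroup Bool → ℝ | x γ = x δ} =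
      (fun x : FreeGroup Bool → ℝ => (x γ, x δ)) ⁻¹' {p : ℝ × ℝ | p.1 = p.2} := rfl
  have hm : MeasurableSet {p : ℝ × ℝ | p.1 = p.2} :=
    measurableSet_eq_fun measurable_fst measurable_snd
  rw [h1, ← Measure.map_apply (by fun_prop) hm, fraMu, Measure.infinitePi_map_eval_prod h,
    Measure.measure_prod_null hm]
  filter_upwards with x
  have : Prod.mk x ⁻¹' {p : ℝ × ℝ | p.1 = p.2} = {x} := by
    ext y
    simp [eq_comm]
  rw [this]
  exact measure_singleton x

theorem fraA_compl : fraMu fraAᶜ = 0 := by
  have : fraAᶜ = ⋃ (γ : FreeGroup Bool) (δ : FreeGroup Bool) (_ : γ ≠ δ),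
      {x : FreeGroup Bool → ℝ | x γ = x δ} := by
    ext x
    simp only [fraA, Set.mem_compl_iff, Set.mem_ofPred_eq, Set.mem_iUnion, not_forall, ne_eq,
      not_not]
  rw [this]
  refine measure_iUnion_null fun γ => measure_iUnion_null fun δ => measure_iUnion_null fun h => ?_
  exact fra_null h

/-- the shift action on all sequences -/
def fraS (γ : FreeGroup Bool) (x : FreeGroup Bool → ℝ) : FreeGroup Bool → ℝ :=
  fun δ => x (γ⁻¹ * δ)

theorem fraS_mp (γ : FreeGroup Bool) : MeasurePreserving (fraS γ) fraMu fraMu := by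
  refine ⟨measurable_pi_lambda _ fun δ => measurable_pi_apply _, ?_⟩
  exact Measure.map_infinitePi_infinitePi_of_inj (P := fun _ : FreeGroup Bool => fraNu)
    (f := fun δ => γ⁻¹ * δ) (mul_right_injective γ⁻¹)

theorem fraS_mem (γ : FreeGroup Bool) (x : FreeGroup Bool → ℝ) : fraS γ x ∈ fraA ↔ x ∈ fraA := by
  constructor
  · intro h δ ε hne
    have := h (γ * δ) (γ * ε) (fun e => hne (mul_left_cancel e))
    simpa [fraS] using this
  · intro h δ ε hne
    exact h _ _ (fun e => hne (mul_left_cancel e))

/-- the action on the injective sequences -/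
def fraT (γ : FreeGroup Bool) (x : fraA) : fraA := ⟨fraS γ x.1, (fraS_mem γ x.1).2 x.2⟩

theorem fraT_mp (γ : FreeGroup Bool) : MeasurePreserving (fraT γ)
    (fraMu.comap Subtype.val) (fraMu.comap Subtype.val) := by
  have hT : Measurable (fraT γ) :=
    ((fraS_mp γ).measurable.comp measurable_subtype_coe).subtype_mk
  refine ⟨hT, ?_⟩
  ext s hs
  have he := MeasurableEmbedding.subtype_coe fraA_meas
  rw [Measure.map_apply hT hs, he.comap_apply, he.comap_apply]
  have hs' : MeasurableSet (Subtype.val '' s) := he.measurableSet_image.2 hs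
  rw [← (fraS_mp γ).measure_preimage hs'.nullMeasurableSet]
  congr 1
  ext x
  constructor
  · rintro ⟨y, hy, rfl⟩
    exact ⟨fraT γ y, hy, rfl⟩
  · rintro ⟨y, hy, hxy⟩
    have hx : x ∈ fraA := (fraS_mem γ x).1 (hxy ▸ y.2)
    refine ⟨⟨x, hx⟩, ?_, rfl⟩
    have : fraT γ ⟨x, hx⟩ = y := Subtype.ext hxy.symm
    rw [Set.mem_preimage, this]
    exact hy

theorem fra : FRAStmt := by
  have he := MeasurableEmbedding.subtype_coe fraA_meas
  have hsb : StandardBorelSpace fraA := fraA_meas.standardBorel
  have hprob : IsProbabilityMeasure (fraMu.comap (Subtype.val : fraA → _)) := by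
    constructor
    rw [he.comap_apply, Set.image_univ, Subtype.range_coe]
    have := prob_compl_eq_zero_iff (μ := fraMu) fraA_meas
    exact this.1 fraA_compl
  refine ⟨fraA, inferInstance, hsb, fraMu.comap Subtype.val, hprob, fraT, ?_, ?_, fraT_mp, ?_⟩
  · intro x
    apply Subtype.ext
    funext δ
    simp [fraT, fraS]
  · intro γ δ x
    apply Subtype.ext
    funext ε
    simp [fraT, fraS, mul_assoc]
  · intro γ x h
    by_contra hne
    have h1 := congrFun (congrArg Subtype.val h) 1
    simp only [fraT, fraS, mul_one] at h1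
    exact x.2 γ⁻¹ 1 (by simpa using hne) h1

end MS
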