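import Pool.Agent.H27.MS.Stmts
import Mathlib.GroupTheory.FreeGroup.Orbit

/-!
# Module PAR (helper17)
-/

namespace MS

open TopologicalSpace MeasureTheory Filter Topology

open Classical in
/-- the mass of `κ` on the words starting with `w`, as a function -/
noncomputable def parF (κ : FreeGroup Bool → ℝ) (w : Bool × Bool) (γ : FreeGroup Bool) : ℝ :=
  if γ ∈ FreeGroup.startsWith w then κ γ else 0

theorem parF_nonneg (κ : FreeGroup Bool → ℝ) (h0 : ∀ γ, 0 ≤ κ γ) (w : Bool × Bool)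
    (γ : FreeGroup Bool) : 0 ≤ parF κ w γ := by
  unfold parF; split_ifs
  · exact h0 γ
  · exact le_rfl

theorem parF_summable (κ : FreeGroup Bool → ℝ) (h0 : ∀ γ, 0 ≤ κ γ) (hs : Summable κ)
    (w : Bool × Bool) : Summable (parF κ w) := by
  refine Summable.of_nonneg_of_le (parF_nonneg κ h0 w) (fun γ => ?_) hs
  unfold parF; split_ifs
  · exact le_rfl
  · exact h0 γ

theorem par_key (κ : FreeGroup Bool → ℝ) (h0 : ∀ γ, 0 ≤ κ γ) (h : HasSum κ 1) (x : Bool) :
    1 ≤ ∑' γ, parF κ (x, true) γ + ∑' γ, parF κ (x, false) γ +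
      ∑' γ, |κ ((FreeGroup.of x)⁻¹ * γ) - κ γ| := by
  have hs := h.summable
  have hs' : Summable fun γ => κ ((FreeGroup.of x)⁻¹ * γ) :=
    (Equiv.mulLeft (FreeGroup.of x)⁻¹).summable_iff.2 hs
  have hd : Summable fun γ => |κ ((FreeGroup.of x)⁻¹ * γ) - κ γ| := (hs'.sub hs).abs
  have h1 := parF_summable κ h0 hs (x, true)
  have h2 := parF_summable κ h0 hs (x, false)
  have h2' : Summable fun γ => parF κ (x, false) ((FreeGroup.of x)⁻¹ * γ) :=
    (Equiv.mulLeft (FreeGroup.of x)⁻¹).summable_iff.2 h2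
  have e2 : ∑' γ, parF κ (x, false) γ = ∑' γ, parF κ (x, false) ((FreeGroup.of x)⁻¹ * γ) :=
    ((Equiv.mulLeft (FreeGroup.of x)⁻¹).tsum_eq _).symm
  rw [e2, ← h.tsum_eq, ← h1.tsum_add h2', ← (h1.add h2').tsum_add hd]
  refine Summable.tsum_le_tsum (fun γ => ?_) hs ((h1.add h2').add hd)
  by_cases hγ : γ ∈ FreeGroup.startsWith (x, true)
  · have e : parF κ (x, true) γ = κ γ := by unfold parF; rw [if_pos hγ]
    have e' := parF_nonneg κ h0 (x, false) ((FreeGroup.of x)⁻¹ * γ)
    have := abs_nonneg (κ ((FreeGroup.of x)⁻¹ * γ) - κ γ)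
    linarith
  · have hm := FreeGroup.startsWith_mk_mul (w := (x, false)) γ hγ
    have e : FreeGroup.mk [(x, false)] = (FreeGroup.of x)⁻¹ := by
      rw [FreeGroup.of, FreeGroup.inv_mk]; rfl
    rw [e] at hm
    have e1 : parF κ (x, false) ((FreeGroup.of x)⁻¹ * γ) = κ ((FreeGroup.of x)⁻¹ * γ) := by
      unfold parF; rw [if_pos hm]
    have e' := parF_nonneg κ h0 (x, true) γ
    have := neg_abs_le (κ ((FreeGroup.of x)⁻¹ * γ) - κ γ)
    linarith

theorem par_sum (κ : FreeGroup Bool → ℝ) (h0 : ∀ γ, 0 ≤ κ γ) (h : HasSum κ 1) :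
    ∑' γ, parF κ (true, true) γ + ∑' γ, parF κ (true, false) γ +
      (∑' γ, parF κ (false, true) γ + ∑' γ, parF κ (false, false) γ) ≤ 1 := by
  have hs := h.summable
  have s1 := parF_summable κ h0 hs (true, true)
  have s2 := parF_summable κ h0 hs (true, false)
  have s3 := parF_summable κ h0 hs (false, true)
  have s4 := parF_summable κ h0 hs (false, false)
  rw [← h.tsum_eq, ← s1.tsum_add s2, ← s3.tsum_add s4, ← (s1.add s2).tsum_add (s3.add s4)]
  refine Summable.tsum_le_tsum (fun γ => ?_) ((s1.add s2).add (s3.add s4)) hs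
  have := h0 γ
  have hm : ∀ w, γ ∈ FreeGroup.startsWith w ↔ (FreeGroup.toWord γ)[0]? = some w :=
    fun w => Iff.rfl
  simp only [parF, hm]
  generalize (FreeGroup.toWord γ)[0]? = o
  rcases o with _ | ⟨b, c⟩
  · simpa using this
  · cases b <;> cases c <;> simp

theorem par : PARStmt := by
  intro κ h0 h
  have h1 := par_key κ h0 h true
  have h2 := par_key κ h0 h false
  have h3 := par_sum κ h0 h
  linarith

end MS
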